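import Pool.Agent.H452.NCI.Cont

/-!
# A continuum of interior naively convex cocompact representations that are not convex cocompact

For one convex cocompact subgroup `Γ` of `PGL(4, ℝ)` (isomorphic to the infinite dihedral group)
there are representations `ρ a` of `Γ`, for all `a` in the interval `(3/2, 3)`, which depend
continuously on `a`, are pairwise not conjugate, lie in the interior of the naively convex cocompact locus and do not have convex
cocompact image.
-/

set_option autoImplicit false

namespace Pool.Agent.Results.MP_7d68c1_gt.ContinuumInterior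

open scoped LinearAlgebra.Projectivization MatrixGroups Topology
open Pool.Agent.H138R3.NC

variable {ι : Type} [Fintype ι] [DecidableEq ι]

/-- The topology of pointwise convergence on the set of representations of `Γ`. -/
noncomputable instance instTopHom (Γ : Subgroup (PGL(ι, ℝ))) : TopologicalSpace (Γ →* PGL(ι, ℝ)) :=
  TopologicalSpace.induced (fun ρ => (ρ : Γ → PGL(ι, ℝ))) inferInstance

/-- The set of naively convex cocompact representations of `Γ`: the faithful ones with naively
convex cocompact image. -/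
def naiveLocus (Γ : Subgroup (PGL(ι, ℝ))) : Set (Γ →* PGL(ι, ℝ)) :=
  {ρ | Function.Injective ρ ∧ NaivelyConvexCocompact ρ.range}

theorem continuous_eval (Γ : Subgroup (PGL(ι, ℝ))) (x : Γ) :
    Continuous (fun ρ : Γ →* PGL(ι, ℝ) => ρ x) :=
  (continuous_apply x).comp continuous_induced_dom

/-- For some convex cocompact subgroup `Γ` of `PGL(4, ℝ)` there are representations `ρ a` of `Γ`
for all `a` in the interval `(3/2, 3)`, in the interior of the naively convex cocompact locus, with
images which are not convex cocompact, depending continuously on `a`, and no two of them are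
conjugate in `PGL(4, ℝ)`. -/
theorem result : ∃ Γ : Subgroup (PGL(Fin 4, ℝ)), ConvexCocompact Γ ∧
    ∃ ρ : Set.Ioo (3 / 2 : ℝ) 3 → (Γ →* PGL(Fin 4, ℝ)), Continuous ρ ∧
      (∀ a, ρ a ∈ interior (naiveLocus Γ) ∧ ¬ ConvexCocompact (ρ a).range) ∧
      ∀ a b, a ≠ b → ¬ ∃ g : PGL(Fin 4, ℝ), ∀ x, ρ b x = g * ρ a x * g⁻¹ := by
  have h2 : 1 < (two : ℝ) := by rw [two_val]; norm_num
  have h1 : (1 : ℝ) ≤ ((1 : ℝˣ) : ℝ) := by simp
  have hinj := std_injective (a := two) (b := 1) h2 h1
  let e : DihedralGroup 0 ≃* (std two 1).range := MonoidHom.ofInjective hinj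
  have hrange : ∀ ρ : (std two 1).range →* PGL(Fin 4, ℝ),
      (ρ.comp e.toMonoidHom).range = ρ.range := by
    intro ρ
    ext g
    constructor
    · rintro ⟨x, rfl⟩
      exact ⟨e x, rfl⟩
    · rintro ⟨x, rfl⟩
      exact ⟨e.symm x, by simp⟩
  -- the units
  let U : Set.Ioo (3 / 2 : ℝ) 3 → ℝˣ := fun a =>
    Units.mk0 (a : ℝ) (by have := a.2.1; linarith)
  have hU : ∀ a, (U a : ℝ) = a := fun a => rfl
  have hU1 : ∀ a, 3 / 2 < (U a : ℝ) := fun a => a.2.1
  have hU2 : ∀ a, (U a : ℝ) < 3 := fun a => a.2.2
  have hU3 : ∀ a, 1 < (U a : ℝ) := fun a => by linarith [hU1 a]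
  have hcomp : ∀ a, ((std (U a) (U a)).comp e.symm.toMonoidHom).comp e.toMonoidHom =
      std (U a) (U a) := by
    intro a
    ext x
    simp
  refine ⟨(std two 1).range, base_cc, fun a => (std (U a) (U a)).comp e.symm.toMonoidHom,
    ?_, fun a => ⟨?_, ?_⟩, ?_⟩
  · refine continuous_induced_rng.2 (continuous_pi fun x => ?_)
    exact Pool.Agent.H452.NCI.continuous_std U continuous_subtype_val (e.symm x)
  · rw [mem_interior]
    refine ⟨{ρ | (ρ (e (.sr 0)), ρ (e (.sr 1))) ∈ Uset}, ?_, ?_, ?_⟩
    · intro ρ hρ
      have hgood : Good (ρ.comp e.toMonoidHom) := good_of_mem_Uset hρ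
      refine ⟨?_, ?_⟩
      · intro x y hxy
        have : (ρ.comp e.toMonoidHom) (e.symm x) = (ρ.comp e.toMonoidHom) (e.symm y) := by
          simpa using hxy
        exact e.symm.injective (hgood.1 this)
      · rw [← hrange]
        exact hgood.2
    · exact isOpen_Uset.preimage
        ((continuous_eval _ (e (.sr 0))).prodMk (continuous_eval _ (e (.sr 1))))
    · have := Pool.Agent.H452.NCI.mem_Uset (hU1 a) (hU2 a)
      rw [← hcomp a] at this
      exact this
  · rw [← hrange, hcomp]
    exact Pool.Agent.H452.NCI.not_cc _ (hU3 a)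
  · rintro a b hab ⟨g, hg⟩
    apply hab
    have hx := hg (e (.r 1))
    have k : ∀ a, ((std (U a) (U a)).comp e.symm.toMonoidHom) (e (.r 1)) =
        std (U a) (U a) (.r 1) := by
      intro a
      simp
    rw [k, k] at hx
    have := Pool.Agent.H452.NCI.param_eq (hU3 a) (hU3 b) g hx
    exact Subtype.ext this

end Pool.Agent.Results.MP_7d68c1_gt.ContinuumInterior
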